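import Pool.Agent.Helper54_BAN.Sqrt

/-!
Squad BAN (MP_592924_gt): the nearest point map of a compact group of isometries (helper54).
-/

set_option autoImplicit false

namespace Pool.Agent.BAN.H54

open Filter Topology

variable {V : Type*} [NormedAddCommGroup V] [InnerProductSpace ℝ V] [FiniteDimensional ℝ V]

/-- the columns of an operator in an orthonormal basis -/
noncomputable def TT (V : Type*) [NormedAddCommGroup V] [InnerProductSpace ℝ V]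
    [FiniteDimensional ℝ V] :
    (V →L[ℝ] V) →ₗ[ℝ] PiLp 2 (fun _ : Fin (Module.finrank ℝ V) => V) where
  toFun A := WithLp.toLp 2 (fun i => A (stdOrthonormalBasis ℝ V i))
  map_add' A B := by ext i; rfl
  map_smul' c A := by ext i; rfl

/-- Hilbert-Schmidt inner product -/
noncomputable def hs (A B : V →L[ℝ] V) : ℝ := inner ℝ (TT V A) (TT V B)

theorem hs_eq (A B : V →L[ℝ] V) : hs A B
    = ∑ i, inner ℝ (A (stdOrthonormalBasis ℝ V i)) (B (stdOrthonormalBasis ℝ V i)) := by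
  rw [hs, PiLp.inner_apply]
  rfl

theorem hs_self (A : V →L[ℝ] V) : hs A A = ‖TT V A‖ ^ 2 := by
  rw [hs, real_inner_self_eq_norm_sq]

theorem hn_sq (A : V →L[ℝ] V) : ‖TT V A‖ ^ 2
    = ∑ i, ‖A (stdOrthonormalBasis ℝ V i)‖ ^ 2 := by
  rw [PiLp.norm_sq_eq_of_L2]
  rfl

theorem hs_sub_left (A B C : V →L[ℝ] V) : hs (A - B) C = hs A C - hs B C := by
  rw [hs, map_sub, inner_sub_left]; rfl

theorem hs_sub_right (A B C : V →L[ℝ] V) : hs A (B - C) = hs A B - hs A C := by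
  rw [hs, map_sub, inner_sub_right]; rfl

theorem hs_add_right (A B C : V →L[ℝ] V) : hs A (B + C) = hs A B + hs A C := by
  rw [hs, map_add, inner_add_right]; rfl

theorem hs_smul_right (c : ℝ) (A B : V →L[ℝ] V) : hs A (c • B) = c * hs A B := by
  rw [hs, map_smul, real_inner_smul_right]; rfl

theorem abs_hs_le (A B : V →L[ℝ] V) : |hs A B| ≤ ‖TT V A‖ * ‖TT V B‖ :=
  abs_real_inner_le_norm _ _

theorem hn_sub_sq (A B : V →L[ℝ] V) :
    ‖TT V (A - B)‖ ^ 2 = ‖TT V A‖ ^ 2 - 2 * hs A B + ‖TT V B‖ ^ 2 := by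
  rw [map_sub, @norm_sub_sq_real]; rfl

theorem norm_le_hn (A : V →L[ℝ] V) : ‖A‖ ≤ ‖TT V A‖ := by
  refine ContinuousLinearMap.opNorm_le_bound _ (norm_nonneg _) fun v => ?_
  have h1 : A v = ∑ i, inner ℝ (stdOrthonormalBasis ℝ V i) v • A (stdOrthonormalBasis ℝ V i) := by
    conv_lhs => rw [← (stdOrthonormalBasis ℝ V).sum_repr' v]
    rw [map_sum]
    exact Finset.sum_congr rfl fun i _ => by rw [map_smul]
  have h2 : ‖A v‖ ≤ ∑ i, |inner ℝ (stdOrthonormalBasis ℝ V i) v|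
      * ‖A (stdOrthonormalBasis ℝ V i)‖ := by
    rw [h1]
    refine (norm_sum_le _ _).trans (le_of_eq (Finset.sum_congr rfl fun i _ => ?_))
    rw [norm_smul, Real.norm_eq_abs]
  have h3 : (∑ i, |inner ℝ (stdOrthonormalBasis ℝ V i) v|
      * ‖A (stdOrthonormalBasis ℝ V i)‖) ^ 2 ≤ (‖TT V A‖ * ‖v‖) ^ 2 := by
    refine (Finset.sum_mul_sq_le_sq_mul_sq _ _ _).trans (le_of_eq ?_)
    rw [mul_pow, hn_sq, mul_comm]
    congr 1
    rw [← (stdOrthonormalBasis ℝ V).sum_sq_norm_inner_right v]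
    exact Finset.sum_congr rfl fun i _ => by rw [Real.norm_eq_abs]
  have h4 := abs_le_of_sq_le_sq' h3 (by positivity)
  exact h2.trans h4.2

theorem hn_le (A : V →L[ℝ] V) : ‖TT V A‖ ≤ Real.sqrt (Module.finrank ℝ V) * ‖A‖ := by
  have h1 : ‖TT V A‖ ^ 2 ≤ (Real.sqrt (Module.finrank ℝ V) * ‖A‖) ^ 2 := by
    rw [hn_sq, mul_pow, Real.sq_sqrt (Nat.cast_nonneg _)]
    calc ∑ i, ‖A (stdOrthonormalBasis ℝ V i)‖ ^ 2
        ≤ ∑ _i : Fin (Module.finrank ℝ V), ‖A‖ ^ 2 := by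
          refine Finset.sum_le_sum fun i _ => ?_
          have h2 := A.le_opNorm (stdOrthonormalBasis ℝ V i)
          rw [(stdOrthonormalBasis ℝ V).norm_eq_one, mul_one] at h2
          gcongr
      _ = _ := by simp
  exact (abs_le_of_sq_le_sq' h1 (by positivity)).2

theorem hn_mul_le (A B : V →L[ℝ] V) : ‖TT V (A * B)‖ ≤ ‖A‖ * ‖TT V B‖ := by
  have h1 : ‖TT V (A * B)‖ ^ 2 ≤ (‖A‖ * ‖TT V B‖) ^ 2 := by
    rw [hn_sq, mul_pow, hn_sq, Finset.mul_sum]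
    refine Finset.sum_le_sum fun i _ => ?_
    have h2 : ‖(A * B) (stdOrthonormalBasis ℝ V i)‖ ≤ ‖A‖ * ‖B (stdOrthonormalBasis ℝ V i)‖ :=
      A.le_opNorm _
    rw [← mul_pow]
    gcongr
  exact (abs_le_of_sq_le_sq' h1 (by positivity)).2

variable {K : Set (V →L[ℝ] V)}

theorem CG.hs_mul (hK : CG K) {g : V →L[ℝ] V} (hg : g ∈ K) (A B : V →L[ℝ] V) :
    hs (g * A) (g * B) = hs A B := by
  have hn : ∀ X : V →L[ℝ] V, ‖TT V (g * X)‖ ^ 2 = ‖TT V X‖ ^ 2 := fun X => by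
    rw [hn_sq, hn_sq]
    refine Finset.sum_congr rfl fun i _ => ?_
    change ‖g (X _)‖ ^ 2 = _
    rw [hK.iso g hg]
  have h1 := hn_sub_sq (g * A) (g * B)
  have h2 := hn_sub_sq A B
  rw [← mul_sub, hn, hn, hn] at h1
  linarith

theorem CG.hn_one (hK : CG K) {g : V →L[ℝ] V} (hg : g ∈ K) :
    ‖TT V g‖ ^ 2 = ‖TT V (1 : V →L[ℝ] V)‖ ^ 2 := by
  have h := hK.hs_mul hg 1 1
  rw [mul_one, hs_self, hs_self] at h
  exact h

theorem CG.hs_one_sub (hK : CG K) {g : V →L[ℝ] V} (hg : g ∈ K) :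
    hs 1 (1 - g) = ‖TT V (1 - g)‖ ^ 2 / 2 := by
  have h1 := hn_sub_sq (1 : V →L[ℝ] V) g
  rw [hK.hn_one hg] at h1
  rw [hs_sub_right, hs_self, h1]
  ring

/-- QG -/
theorem qg (hK : CG K) : ∃ c r : ℝ, 0 < c ∧ 0 < r ∧ ∀ C : V →L[ℝ] V, ‖C - 1‖ ≤ r →
    (∀ κ ∈ K, hs C κ ≤ hs C 1) → ∀ κ ∈ K, c * ‖TT V (1 - κ)‖ ^ 2 ≤ hs C (1 - κ) := by
  obtain ⟨r1, hr1, hsq⟩ := sqrt hK
  set r0 : ℝ := min r1 (1 / 8) with hr0
  have hr0p : 0 < r0 := by rw [hr0]; positivity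
  have hr0a : r0 ≤ r1 := min_le_left _ _
  have hr0b : r0 ≤ 1 / 8 := min_le_right _ _
  set D : ℝ := Real.sqrt (Module.finrank ℝ V) with hD
  have hD0 : 0 ≤ D := Real.sqrt_nonneg _
  refine ⟨1 / 18, r0 / (4 * (D + 1)), by norm_num, by positivity, fun C hC hmax κ hκ => ?_⟩
  have hCn : ‖TT V (C - 1)‖ ≤ r0 / 4 := by
    calc ‖TT V (C - 1)‖ ≤ D * ‖C - 1‖ := hn_le _
      _ ≤ D * (r0 / (4 * (D + 1))) := by gcongr
      _ = r0 / 4 * (D / (D + 1)) := by field_simp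
      _ ≤ r0 / 4 * 1 := by
          gcongr
          rw [div_le_one (by positivity)]
          linarith
      _ = r0 / 4 := mul_one _
  have hsplit : ∀ X : V →L[ℝ] V, hs C X = hs 1 X + hs (C - 1) X := fun X => by
    rw [hs_sub_left]; ring
  rcases le_or_gt r0 ‖1 - κ‖ with h | h
  · -- far
    have h1 := abs_hs_le (C - 1) (1 - κ)
    have h2 : ‖TT V (C - 1)‖ * ‖TT V (1 - κ)‖ ≤ ‖TT V (1 - κ)‖ ^ 2 / 4 := by
      have h3 : r0 ≤ ‖TT V (1 - κ)‖ := h.trans (norm_le_hn _)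
      nlinarith [norm_nonneg (TT V (1 - κ))]
    rw [hsplit, hK.hs_one_sub hκ]
    have h4 := (abs_le.mp (h1.trans h2)).1
    nlinarith [sq_nonneg ‖TT V (1 - κ)‖]
  · -- near
    obtain ⟨l, hl, hll, hln⟩ := hsq κ hκ (by rw [norm_sub_rev]; exact h.le.trans hr0a)
    have hln' : ‖l - 1‖ ≤ 1 / 8 := by
      rw [norm_sub_rev κ 1] at hln
      exact hln.trans (h.le.trans hr0b)
    set Z : V →L[ℝ] V := l - 1 with hZ
    have hk1 : 1 - κ = (2 : ℝ) • (1 - l) - Z * Z := by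
      rw [hZ, ← hll, two_smul]; noncomm_ring
    have hk2 : 1 - κ = -((2 : ℝ) • Z + Z * Z) := by
      rw [hZ, ← hll, two_smul]; noncomm_ring
    have hZl : ‖TT V (1 - l)‖ = ‖TT V Z‖ := by
      have : (1 : V →L[ℝ] V) - l = -Z := by rw [hZ]; abel
      rw [this, map_neg, norm_neg]
    have hZZ : ‖TT V (Z * Z)‖ ≤ ‖Z‖ * ‖TT V Z‖ := hn_mul_le Z Z
    set q : ℝ := ‖TT V Z‖ with hq
    have hq0 : 0 ≤ q := norm_nonneg _
    have hZq : ‖Z‖ ≤ q := norm_le_hn Z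
    have hup : ‖TT V (1 - κ)‖ ≤ 3 * q := by
      rw [hk2, map_neg, norm_neg, map_add, map_smul]
      refine (norm_add_le _ _).trans ?_
      rw [norm_smul, Real.norm_eq_abs, abs_of_pos (by norm_num : (0 : ℝ) < 2)]
      nlinarith [norm_nonneg Z]
    have hlow : (2 - ‖Z‖) * q ≤ ‖TT V (1 - κ)‖ := by
      rw [hk2, map_neg, norm_neg, map_add, map_smul]
      have h1 := norm_sub_le_norm_add ((2 : ℝ) • TT V Z) (TT V (Z * Z))
      rw [norm_smul, Real.norm_eq_abs, abs_of_pos (by norm_num : (0 : ℝ) < 2)] at h1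
      linarith
    have hlow2 : (2 - ‖Z‖) ^ 2 * q ^ 2 ≤ ‖TT V (1 - κ)‖ ^ 2 := by
      rw [← mul_pow]
      have : 0 ≤ (2 - ‖Z‖) * q := mul_nonneg (by linarith) hq0
      gcongr
    have h1Z : hs 1 (Z * Z) = q ^ 2 - ‖TT V (1 - κ)‖ ^ 2 / 2 := by
      have e : Z * Z = (2 : ℝ) • (1 - l) - (1 - κ) := by rw [hk1]; abel
      rw [e, hs_sub_right, hs_smul_right, hK.hs_one_sub hl, hK.hs_one_sub hκ, hZl]
      ring
    have hCZ : |hs (C - 1) (Z * Z)| ≤ 1 / 4 * q ^ 2 := by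
      refine (abs_hs_le _ _).trans ?_
      calc ‖TT V (C - 1)‖ * ‖TT V (Z * Z)‖ ≤ (1 / 4) * (q * q) := by
            refine mul_le_mul (hCn.trans (by linarith)) (hZZ.trans (by gcongr)) (norm_nonneg _)
              (by norm_num)
        _ = 1 / 4 * q ^ 2 := by ring
    have hmain : hs C (1 - κ) = 2 * hs C (1 - l) - (hs 1 (Z * Z) + hs (C - 1) (Z * Z)) := by
      rw [hk1, hs_sub_right, hs_smul_right, hsplit (Z * Z)]
    have hCl : 0 ≤ hs C (1 - l) := by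
      rw [hs_sub_right]; linarith [hmax l hl]
    have hCZ' := (abs_le.mp hCZ).2
    have h5 : q ^ 2 / 2 ≤ hs C (1 - κ) := by
      rw [hmain, h1Z]
      have h6 : 7 / 2 * q ^ 2 ≤ ‖TT V (1 - κ)‖ ^ 2 := by
        have h7 : 7 / 2 ≤ (2 - ‖Z‖) ^ 2 := by nlinarith [norm_nonneg Z]
        nlinarith [sq_nonneg q]
      linarith
    have h8 : ‖TT V (1 - κ)‖ ^ 2 ≤ 9 * q ^ 2 := by
      nlinarith [norm_nonneg (TT V (1 - κ))]
    linarith

/-- NP -/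
theorem np (hK : CG K) : ∃ (kh : (V →L[ℝ] V) → (V →L[ℝ] V)) (r L : ℝ), 0 < r ∧ 0 ≤ L ∧
    (∀ C, kh C ∈ K) ∧ (∀ κ ∈ K, kh κ = κ) ∧
    (∀ κ ∈ K, ∀ C, (∃ κ0 ∈ K, ‖C - κ0‖ ≤ r) → kh (κ * C) = κ * kh C) ∧
    ∀ C C', (∃ κ0 ∈ K, ‖C - κ0‖ ≤ r) → (∃ κ0 ∈ K, ‖C' - κ0‖ ≤ r) →
      ‖kh C - kh C'‖ ≤ L * ‖C - C'‖ := by
  obtain ⟨c, r, hc, hr, hqg⟩ := qg hK
  have hex : ∀ C : V →L[ℝ] V, ∃ μ ∈ K, ∀ κ ∈ K, hs C κ ≤ hs C μ := fun C => by
    have hcont : Continuous fun κ : V →L[ℝ] V => hs C κ := by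
      have h1 : Continuous (TT V) := (TT V).continuous_of_finiteDimensional
      exact continuous_const.inner h1
    obtain ⟨μ, hμ, hm⟩ := hK.cpt.exists_isMaxOn ⟨1, hK.one⟩ hcont.continuousOn
    exact ⟨μ, hμ, fun κ hκ => hm hκ⟩
  choose kh hkK hkm using hex
  set D : ℝ := Real.sqrt (Module.finrank ℝ V) with hD
  have hD0 : 0 ≤ D := Real.sqrt_nonneg _
  set r' : ℝ := r / (D + 1) with hr'
  have hr'0 : 0 < r' := by rw [hr']; positivity
  have hDr : D * r' ≤ r := by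
    rw [hr', mul_div_assoc']
    rw [div_le_iff₀ (by positivity)]
    nlinarith
  have star : ∀ C, (∃ κ0 ∈ K, ‖C - κ0‖ ≤ r') → ∀ κ ∈ K,
      c * ‖TT V (kh C - κ)‖ ^ 2 ≤ hs C (kh C - κ) := by
    rintro C ⟨κ0, hκ0, hCκ⟩ κ hκ
    obtain ⟨g, hg, hkg, hgk⟩ := hK.inv (kh C) (hkK C)
    have h1 : ‖TT V (C - kh C)‖ ^ 2 ≤ ‖TT V (C - κ0)‖ ^ 2 := by
      rw [hn_sub_sq, hn_sub_sq, hK.hn_one (hkK C), hK.hn_one hκ0]
      linarith [hkm C κ0 hκ0]
    have h2 : ‖TT V (C - kh C)‖ ≤ ‖TT V (C - κ0)‖ :=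
      (abs_le_of_sq_le_sq' h1 (norm_nonneg _)).2
    have h3 : ‖C - kh C‖ ≤ r := by
      calc ‖C - kh C‖ ≤ ‖TT V (C - kh C)‖ := norm_le_hn _
        _ ≤ ‖TT V (C - κ0)‖ := h2
        _ ≤ D * ‖C - κ0‖ := hn_le _
        _ ≤ D * r' := by gcongr
        _ ≤ r := hDr
    have h4 : ‖g * C - 1‖ ≤ r := by
      have : g * C - 1 = g * (C - kh C) := by rw [mul_sub, hgk]
      rw [this, hK.norm_mul_left hg]
      exact h3
    have h5 : ∀ κ' : V →L[ℝ] V, hs (g * C) κ' = hs C (kh C * κ') := fun κ' => by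
      have h6 := hK.hs_mul hg C (kh C * κ')
      rw [← mul_assoc, hgk, one_mul] at h6
      exact h6
    have h7 := hqg (g * C) h4 (fun κ' hκ' => by
      rw [h5, h5, mul_one]
      exact hkm C _ (hK.mul _ (hkK C) _ hκ')) (g * κ) (hK.mul _ hg _ hκ)
    have h8 : kh C * (1 - g * κ) = kh C - κ := by
      rw [mul_sub, mul_one, ← mul_assoc, hkg, one_mul]
    have h9 : ‖TT V (1 - g * κ)‖ ^ 2 = ‖TT V (kh C - κ)‖ ^ 2 := by
      rw [← hs_self, ← hs_self, ← hK.hs_mul (hkK C), h8]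
    rw [h5, h8, h9] at h7
    exact h7
  refine ⟨kh, r', D / (2 * c), hr'0, by positivity, hkK, ?_, ?_, ?_⟩
  · intro κ hκ
    have h1 := star κ ⟨κ, hκ, by simp [hr'0.le]⟩ κ hκ
    have h2 := hkm κ κ hκ
    have h3 : ‖TT V (κ - kh κ)‖ ^ 2 ≤ 0 := by
      rw [hn_sub_sq, hK.hn_one (hkK κ), ← hK.hn_one hκ]
      rw [hs_self] at h2
      linarith
    have h4 : ‖TT V (κ - kh κ)‖ = 0 := by nlinarith [norm_nonneg (TT V (κ - kh κ))]
    have h5 : ‖κ - kh κ‖ ≤ 0 := by rw [← h4]; exact norm_le_hn _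
    exact (sub_eq_zero.mp (norm_le_zero_iff.mp h5)).symm
  · rintro κ hκ C ⟨κ0, hκ0, hC⟩
    obtain ⟨g, hg, hkg, hgk⟩ := hK.inv κ hκ
    have h0 : ∃ κ1 ∈ K, ‖κ * C - κ1‖ ≤ r' :=
      ⟨κ * κ0, hK.mul _ hκ _ hκ0, by rw [← mul_sub, hK.norm_mul_left hκ]; exact hC⟩
    have h1 := star (κ * C) h0 (κ * kh C) (hK.mul _ hκ _ (hkK C))
    have h2 : hs (κ * C) (kh (κ * C)) ≤ hs (κ * C) (κ * kh C) := by
      have h3 : kh (κ * C) = κ * (g * kh (κ * C)) := by rw [← mul_assoc, hkg, one_mul]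
      rw [h3, hK.hs_mul hκ, hK.hs_mul hκ]
      exact hkm C _ (hK.mul _ hg _ (hkK _))
    rw [hs_sub_right] at h1
    have h4 : ‖TT V (kh (κ * C) - κ * kh C)‖ ^ 2 ≤ 0 := by
      by_contra h5
      push Not at h5
      have := mul_pos hc h5
      linarith
    have h4' : ‖TT V (kh (κ * C) - κ * kh C)‖ = 0 := by
      nlinarith [norm_nonneg (TT V (kh (κ * C) - κ * kh C))]
    have h5 : ‖kh (κ * C) - κ * kh C‖ ≤ 0 := by rw [← h4']; exact norm_le_hn _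
    exact sub_eq_zero.mp (norm_le_zero_iff.mp h5)
  · intro C C' hC hC'
    have h1 := star C hC (kh C') (hkK C')
    have h2 := star C' hC' (kh C) (hkK C)
    have h3 : ‖TT V (kh C' - kh C)‖ = ‖TT V (kh C - kh C')‖ := by
      rw [← neg_sub, map_neg, norm_neg]
    rw [h3] at h2
    have h4 : hs C (kh C - kh C') + hs C' (kh C' - kh C) = hs (C - C') (kh C - kh C') := by
      rw [hs_sub_left]
      simp only [hs_sub_right]
      ring
    have h5 : 2 * c * ‖TT V (kh C - kh C')‖ ^ 2 ≤ ‖TT V (C - C')‖ * ‖TT V (kh C - kh C')‖ := by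
      have := (le_abs_self _).trans (abs_hs_le (C - C') (kh C - kh C'))
      linarith
    have h6 : 2 * c * ‖TT V (kh C - kh C')‖ ≤ ‖TT V (C - C')‖ := by
      rcases (norm_nonneg (TT V (kh C - kh C'))).eq_or_lt with h7 | h7
      · rw [← h7, mul_zero]; exact norm_nonneg _
      · rw [pow_two, ← mul_assoc] at h5
        exact le_of_mul_le_mul_right h5 h7
    have h7 : ‖kh C - kh C'‖ ≤ ‖TT V (kh C - kh C')‖ := norm_le_hn _
    have h8 : ‖TT V (C - C')‖ ≤ D * ‖C - C'‖ := hn_le _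
    rw [div_mul_eq_mul_div, le_div_iff₀ (by positivity)]
    nlinarith

end Pool.Agent.BAN.H54
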