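import Mathlib

/-!
Squad BAN (MP_592924_gt): powers of elements near `1`, square roots (helper54).
-/

set_option autoImplicit false

namespace Pool.Agent.BAN.H54

open Filter Topology

theorem pow_sub_one_le {A : Type*} [NormedRing A] (a : A) (m : ℕ) :
    ‖(1 + a) ^ m - 1‖ ≤ (1 + ‖a‖) ^ m - 1 := by
  induction m with
  | zero => simp
  | succ m ih =>
    have e : (1 + a) ^ (m + 1) - 1 = ((1 + a) ^ m - 1) + a * ((1 + a) ^ m - 1) + a := by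
      rw [pow_succ']; noncomm_ring
    rw [e]
    calc ‖((1 + a) ^ m - 1) + a * ((1 + a) ^ m - 1) + a‖
        ≤ ‖(1 + a) ^ m - 1‖ + ‖a‖ * ‖(1 + a) ^ m - 1‖ + ‖a‖ := by
          refine (norm_add_le _ _).trans ?_
          gcongr
          refine (norm_add_le _ _).trans ?_
          gcongr
          exact norm_mul_le _ _
      _ ≤ ((1 + ‖a‖) ^ m - 1) + ‖a‖ * ((1 + ‖a‖) ^ m - 1) + ‖a‖ := by gcongr
      _ = (1 + ‖a‖) ^ (m + 1) - 1 := by ring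

theorem pow_sub_le {A : Type*} [NormedRing A] (a : A) (m : ℕ) :
    ‖(1 + a) ^ m - 1 - m • a‖ ≤ (1 + ‖a‖) ^ m - 1 - m * ‖a‖ := by
  induction m with
  | zero => simp
  | succ m ih =>
    have e : (1 + a) ^ (m + 1) - 1 - (m + 1) • a
        = ((1 + a) ^ m - 1 - m • a) + a * ((1 + a) ^ m - 1) := by
      rw [pow_succ', add_smul, one_smul]; noncomm_ring
    rw [e]
    calc ‖((1 + a) ^ m - 1 - m • a) + a * ((1 + a) ^ m - 1)‖
        ≤ ‖(1 + a) ^ m - 1 - m • a‖ + ‖a‖ * ‖(1 + a) ^ m - 1‖ := by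
          refine (norm_add_le _ _).trans ?_
          gcongr
          exact norm_mul_le _ _
      _ ≤ ((1 + ‖a‖) ^ m - 1 - m * ‖a‖) + ‖a‖ * ((1 + ‖a‖) ^ m - 1) := by
          gcongr
          exact pow_sub_one_le a m
      _ = (1 + ‖a‖) ^ (m + 1) - 1 - ((m + 1 : ℕ) : ℝ) * ‖a‖ := by push_cast; ring

theorem exp_bd {y : ℝ} (hy : 0 ≤ y) : Real.exp y - 1 - y ≤ y ^ 2 * Real.exp y := by
  have h1 : Real.exp y - 1 ≤ y * Real.exp y := by
    have h := Real.add_one_le_exp (-y)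
    have h2 : Real.exp (-y) * Real.exp y = 1 := by rw [← Real.exp_add]; simp
    nlinarith [Real.exp_pos y, mul_le_mul_of_nonneg_right h (Real.exp_pos y).le]
  nlinarith [mul_le_mul_of_nonneg_left h1 hy]

/-- PW -/
theorem pw {A : Type*} [NormedRing A] (a : A) (m : ℕ) :
    ‖(1 + a) ^ m - 1 - m • a‖ ≤ (m * ‖a‖) ^ 2 * Real.exp (m * ‖a‖) := by
  refine (pow_sub_le a m).trans ?_
  have h1 : (1 + ‖a‖) ^ m ≤ Real.exp (m * ‖a‖) := by
    rw [Real.exp_nat_mul]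
    gcongr
    linarith [Real.add_one_le_exp ‖a‖]
  have h2 := exp_bd (y := m * ‖a‖) (by positivity)
  linarith

/-- PL -/
theorem pl {A : Type*} [NormedRing A] [NormedAlgebra ℝ A] [ProperSpace A] (K : Set A)
    (ε : ℕ → ℝ) (Z : ℕ → A) (Z0 : A) (hε : ∀ i, 0 < ε i) (hε0 : Tendsto ε atTop (𝓝 0))
    (hZ : Tendsto Z atTop (𝓝 Z0))
    (hK : ∀ t ∈ Set.Icc (0 : ℝ) 1, ∀ (H : A) (φ : ℕ → ℕ), StrictMono φ →
      Tendsto (fun i => (1 + ε (φ i) • Z (φ i)) ^ ⌊t / ε (φ i)⌋₊) atTop (𝓝 H) → H ∈ K) :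
    ∀ t ∈ Set.Icc (0 : ℝ) 1, ∃ κ ∈ K, ‖κ - (1 + t • Z0)‖ ≤ ‖Z0‖ ^ 2 * Real.exp ‖Z0‖ * t ^ 2 := by
  intro t ht
  have hm : Tendsto (fun i => (⌊t / ε i⌋₊ : ℝ) * ε i) atTop (𝓝 t) := by
    have h1 : ∀ i, |(⌊t / ε i⌋₊ : ℝ) * ε i - t| ≤ ε i := by
      intro i
      have h0 : 0 ≤ t / ε i := div_nonneg ht.1 (hε i).le
      have ha := Nat.floor_le h0
      have hb := Nat.lt_floor_add_one (t / ε i)
      have hc : t / ε i * ε i = t := div_mul_cancel₀ _ (hε i).ne'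
      rw [abs_le]
      constructor
      · nlinarith [mul_lt_mul_of_pos_right hb (hε i)]
      · nlinarith [mul_le_mul_of_nonneg_right ha (hε i).le, hε i]
    rw [tendsto_iff_norm_sub_tendsto_zero]
    refine squeeze_zero (fun i => norm_nonneg _) (fun i => ?_) hε0
    rw [Real.norm_eq_abs]
    exact h1 i
  have hmZ : Tendsto (fun i => (⌊t / ε i⌋₊ : ℕ) • (ε i • Z i)) atTop (𝓝 (t • Z0)) := by
    have h2 := hm.smul hZ
    refine h2.congr fun i => ?_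
    rw [← Nat.cast_smul_eq_nsmul ℝ, smul_smul]
  have hn : Tendsto (fun i => (⌊t / ε i⌋₊ : ℝ) * ‖ε i • Z i‖) atTop (𝓝 (t * ‖Z0‖)) := by
    have h2 := hm.mul hZ.norm
    refine h2.congr fun i => ?_
    rw [norm_smul, Real.norm_eq_abs, abs_of_pos (hε i)]
    ring
  set P : ℕ → A := fun i => (1 + ε i • Z i) ^ ⌊t / ε i⌋₊ with hP
  set R : ℕ → ℝ := fun i => ((⌊t / ε i⌋₊ : ℝ) * ‖ε i • Z i‖) ^ 2
    * Real.exp ((⌊t / ε i⌋₊ : ℝ) * ‖ε i • Z i‖) with hR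
  have hPR : ∀ i, ‖P i - 1 - (⌊t / ε i⌋₊ : ℕ) • (ε i • Z i)‖ ≤ R i := fun i => pw _ _
  have hRl : Tendsto R atTop (𝓝 ((t * ‖Z0‖) ^ 2 * Real.exp (t * ‖Z0‖))) :=
    (hn.pow 2).mul ((Real.continuous_exp.tendsto _).comp hn)
  -- bounded
  have hb : ∃ M : ℝ, ∀ i, P i ∈ Metric.closedBall (0 : A) M := by
    obtain ⟨M1, hM1⟩ := hRl.bddAbove_range
    obtain ⟨M2, hM2⟩ := hmZ.norm.bddAbove_range
    refine ⟨M1 + M2 + ‖(1 : A)‖, fun i => ?_⟩
    rw [mem_closedBall_zero_iff]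
    have h3 := hM1 ⟨i, rfl⟩
    have h4 := hM2 ⟨i, rfl⟩
    have h5 : P i = (P i - 1 - (⌊t / ε i⌋₊ : ℕ) • (ε i • Z i))
        + (⌊t / ε i⌋₊ : ℕ) • (ε i • Z i) + 1 := by abel
    rw [h5]
    refine (norm_add_le _ _).trans ?_
    refine add_le_add ((norm_add_le _ _).trans ?_) le_rfl
    exact add_le_add ((hPR i).trans h3) h4
  obtain ⟨M, hM⟩ := hb
  obtain ⟨H, -, φ, hφ, hH⟩ := (isCompact_closedBall (0 : A) M).tendsto_subseq hM
  refine ⟨H, hK t ht H φ hφ hH, ?_⟩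
  have h6 : Tendsto (fun i => ‖P (φ i) - 1 - (⌊t / ε (φ i)⌋₊ : ℕ) • (ε (φ i) • Z (φ i))‖) atTop
      (𝓝 ‖H - 1 - t • Z0‖) :=
    ((hH.sub_const 1).sub (hmZ.comp hφ.tendsto_atTop)).norm
  have h7 : ‖H - 1 - t • Z0‖ ≤ (t * ‖Z0‖) ^ 2 * Real.exp (t * ‖Z0‖) :=
    le_of_tendsto_of_tendsto' h6 (hRl.comp hφ.tendsto_atTop) fun i => hPR (φ i)
  have h8 : H - (1 + t • Z0) = H - 1 - t • Z0 := by abel
  rw [h8]
  refine h7.trans ?_
  have h9 : Real.exp (t * ‖Z0‖) ≤ Real.exp ‖Z0‖ := by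
    apply Real.exp_le_exp.mpr
    nlinarith [ht.2, norm_nonneg Z0]
  calc (t * ‖Z0‖) ^ 2 * Real.exp (t * ‖Z0‖) ≤ (t * ‖Z0‖) ^ 2 * Real.exp ‖Z0‖ := by gcongr
    _ = ‖Z0‖ ^ 2 * Real.exp ‖Z0‖ * t ^ 2 := by ring

/-- ROOT -/
theorem root {A : Type*} [NormedRing A] [NormedAlgebra ℝ A] [CompleteSpace A] (g : A)
    (hg : ‖g - 1‖ ≤ 1 / 4) : ∃ a : A, a * a = g ∧ ‖a - 1‖ ≤ ‖g - 1‖ := by
  set r : ℝ := ‖g - 1‖ with hr
  have hr0 : 0 ≤ r := norm_nonneg _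
  let f : A → A := fun x => (1 / 2 : ℝ) • (g - 1 - x * x)
  have hmaps : Set.MapsTo f (Metric.closedBall 0 r) (Metric.closedBall 0 r) := by
    intro x hx
    rw [mem_closedBall_zero_iff] at hx ⊢
    have h1 : ‖f x‖ ≤ 1 / 2 * (r + r * r) := by
      change ‖(1 / 2 : ℝ) • (g - 1 - x * x)‖ ≤ _
      rw [norm_smul, Real.norm_eq_abs, abs_of_pos (by norm_num : (0 : ℝ) < 1 / 2)]
      gcongr
      refine (norm_sub_le _ _).trans ?_
      rw [← hr]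
      gcongr
      exact (norm_mul_le _ _).trans (mul_le_mul hx hx (norm_nonneg _) hr0)
    nlinarith
  have hcontr : ContractingWith (1 / 2) (hmaps.restrict f (Metric.closedBall 0 r)
      (Metric.closedBall 0 r)) := by
    refine ⟨by norm_num, ?_⟩
    apply LipschitzWith.of_dist_le_mul
    rintro ⟨x, hx⟩ ⟨y, hy⟩
    rw [mem_closedBall_zero_iff] at hx hy
    change dist (f x) (f y) ≤ _ * dist x y
    rw [dist_eq_norm, dist_eq_norm]
    have e : f x - f y = (1 / 2 : ℝ) • (y * (y - x) + (y - x) * x) := by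
      change (1 / 2 : ℝ) • (g - 1 - x * x) - (1 / 2 : ℝ) • (g - 1 - y * y) = _
      rw [← smul_sub]
      congr 1
      noncomm_ring
    rw [e, norm_smul, Real.norm_eq_abs, abs_of_pos (by norm_num : (0 : ℝ) < 1 / 2)]
    have h2 : ‖y * (y - x) + (y - x) * x‖ ≤ r * ‖x - y‖ + ‖x - y‖ * r := by
      refine (norm_add_le _ _).trans ?_
      rw [norm_sub_rev x y]
      refine add_le_add ((norm_mul_le _ _).trans ?_) ((norm_mul_le _ _).trans ?_)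
      · gcongr
      · gcongr
    have h3 : ((1 / 2 : NNReal) : ℝ) = 1 / 2 := by norm_num
    rw [h3]
    nlinarith [norm_nonneg (x - y)]
  obtain ⟨x, hx, hfx, -⟩ := hcontr.exists_fixedPoint' Metric.isClosed_closedBall.isComplete
    hmaps (x := 0) (by simpa using hr0) (edist_ne_top _ _)
  rw [mem_closedBall_zero_iff] at hx
  refine ⟨1 + x, ?_, by simpa using hx⟩
  have h4 : (1 / 2 : ℝ) • (g - 1 - x * x) = x := hfx
  have h5 : g - 1 - x * x = (2 : ℝ) • x := by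
    have h7 := congrArg (fun y => (2 : ℝ) • y) h4
    simpa [smul_smul] using h7
  have h6 : g = 1 + (2 : ℝ) • x + x * x := by rw [← h5]; abel
  rw [h6, two_smul]
  noncomm_ring

end Pool.Agent.BAN.H54
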