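import Pool.Agent.Helper10_BAN.Stmt
import Pool.Agent.Helper54_BAN.Root

/-!
Squad BAN (MP_592924_gt): PW, PL, ROOT, SQRT over `RCLike` (helper54).
-/

set_option autoImplicit false

namespace Pool.Agent.BAN.H54

open Filter Topology

/-- PL -/
theorem plk {𝕜 : Type*} [RCLike 𝕜] {A : Type*} [NormedRing A] [NormedAlgebra 𝕜 A] [ProperSpace A]
    (K : Set A)
    (ε : ℕ → ℝ) (Z : ℕ → A) (Z0 : A) (hε : ∀ i, 0 < ε i) (hε0 : Tendsto ε atTop (𝓝 0))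
    (hZ : Tendsto Z atTop (𝓝 Z0))
    (hK : ∀ t ∈ Set.Icc (0 : ℝ) 1, ∀ (H : A) (φ : ℕ → ℕ), StrictMono φ →
      Tendsto (fun i => (1 + ((ε (φ i) : ℝ) : 𝕜) • Z (φ i)) ^ ⌊t / ε (φ i)⌋₊) atTop (𝓝 H) → H ∈ K) :
    ∀ t ∈ Set.Icc (0 : ℝ) 1, ∃ κ ∈ K, ‖κ - (1 + ((t : ℝ) : 𝕜) • Z0)‖ ≤ ‖Z0‖ ^ 2 * Real.exp ‖Z0‖ * t ^ 2 := by
  intro t ht
  have hm : Tendsto (fun i => (⌊t / ε i⌋₊ : ℝ) * ε i) atTop (𝓝 t) := by
    have h1 : ∀ i, |(⌊t / ε i⌋₊ : ℝ) * ε i - t| ≤ ε i := by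
      intro i
      have h0 : 0 ≤ t / ε i := div_nonneg ht.1 (hε i).le
      have ha := Nat.floor_le h0
      have hb := Nat.lt_floor_add_one (t / ε i)
      have hc : t / ε i * ε i = t := div_mul_cancel₀ _ (hε i).ne'
      rw [abs_le]
      constructor
      · nlinarith [mul_lt_mul_of_pos_right hb (hε i)]
      · nlinarith [mul_le_mul_of_nonneg_right ha (hε i).le, hε i]
    rw [tendsto_iff_norm_sub_tendsto_zero]
    refine squeeze_zero (fun i => norm_nonneg _) (fun i => ?_) hε0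
    rw [Real.norm_eq_abs]
    exact h1 i
  have hmZ : Tendsto (fun i => (⌊t / ε i⌋₊ : ℕ) • (((ε i : ℝ) : 𝕜) • Z i)) atTop (𝓝 (((t : ℝ) : 𝕜) • Z0)) := by
    have h1 : Tendsto (fun i => (((⌊t / ε i⌋₊ : ℝ) * ε i : ℝ) : 𝕜)) atTop (𝓝 ((t : ℝ) : 𝕜)) :=
      (RCLike.continuous_ofReal.tendsto t).comp hm
    have h2 := h1.smul hZ
    refine h2.congr fun i => ?_
    rw [← Nat.cast_smul_eq_nsmul 𝕜, smul_smul]
    push_cast
    rfl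
  have hn : Tendsto (fun i => (⌊t / ε i⌋₊ : ℝ) * ‖((ε i : ℝ) : 𝕜) • Z i‖) atTop (𝓝 (t * ‖Z0‖)) := by
    have h2 := hm.mul hZ.norm
    refine h2.congr fun i => ?_
    rw [norm_smul, RCLike.norm_ofReal, abs_of_pos (hε i)]
    ring
  set P : ℕ → A := fun i => (1 + ((ε i : ℝ) : 𝕜) • Z i) ^ ⌊t / ε i⌋₊ with hP
  set R : ℕ → ℝ := fun i => ((⌊t / ε i⌋₊ : ℝ) * ‖((ε i : ℝ) : 𝕜) • Z i‖) ^ 2
    * Real.exp ((⌊t / ε i⌋₊ : ℝ) * ‖((ε i : ℝ) : 𝕜) • Z i‖) with hR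
  have hPR : ∀ i, ‖P i - 1 - (⌊t / ε i⌋₊ : ℕ) • (((ε i : ℝ) : 𝕜) • Z i)‖ ≤ R i := fun i => pw _ _
  have hRl : Tendsto R atTop (𝓝 ((t * ‖Z0‖) ^ 2 * Real.exp (t * ‖Z0‖))) :=
    (hn.pow 2).mul ((Real.continuous_exp.tendsto _).comp hn)
  -- bounded
  have hb : ∃ M : ℝ, ∀ i, P i ∈ Metric.closedBall (0 : A) M := by
    obtain ⟨M1, hM1⟩ := hRl.bddAbove_range
    obtain ⟨M2, hM2⟩ := hmZ.norm.bddAbove_range
    refine ⟨M1 + M2 + ‖(1 : A)‖, fun i => ?_⟩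
    rw [mem_closedBall_zero_iff]
    have h3 := hM1 ⟨i, rfl⟩
    have h4 := hM2 ⟨i, rfl⟩
    have h5 : P i = (P i - 1 - (⌊t / ε i⌋₊ : ℕ) • (((ε i : ℝ) : 𝕜) • Z i))
        + (⌊t / ε i⌋₊ : ℕ) • (((ε i : ℝ) : 𝕜) • Z i) + 1 := by abel
    rw [h5]
    refine (norm_add_le _ _).trans ?_
    refine add_le_add ((norm_add_le _ _).trans ?_) le_rfl
    exact add_le_add ((hPR i).trans h3) h4
  obtain ⟨M, hM⟩ := hb
  obtain ⟨H, -, φ, hφ, hH⟩ := (isCompact_closedBall (0 : A) M).tendsto_subseq hM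
  refine ⟨H, hK t ht H φ hφ hH, ?_⟩
  have h6 : Tendsto (fun i => ‖P (φ i) - 1 - (⌊t / ε (φ i)⌋₊ : ℕ) • (((ε (φ i) : ℝ) : 𝕜) • Z (φ i))‖) atTop
      (𝓝 ‖H - 1 - ((t : ℝ) : 𝕜) • Z0‖) :=
    ((hH.sub_const 1).sub (hmZ.comp hφ.tendsto_atTop)).norm
  have h7 : ‖H - 1 - ((t : ℝ) : 𝕜) • Z0‖ ≤ (t * ‖Z0‖) ^ 2 * Real.exp (t * ‖Z0‖) :=
    le_of_tendsto_of_tendsto' h6 (hRl.comp hφ.tendsto_atTop) fun i => hPR (φ i)
  have h8 : H - (1 + ((t : ℝ) : 𝕜) • Z0) = H - 1 - ((t : ℝ) : 𝕜) • Z0 := by abel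
  rw [h8]
  refine h7.trans ?_
  have h9 : Real.exp (t * ‖Z0‖) ≤ Real.exp ‖Z0‖ := by
    apply Real.exp_le_exp.mpr
    nlinarith [ht.2, norm_nonneg Z0]
  calc (t * ‖Z0‖) ^ 2 * Real.exp (t * ‖Z0‖) ≤ (t * ‖Z0‖) ^ 2 * Real.exp ‖Z0‖ := by gcongr
    _ = ‖Z0‖ ^ 2 * Real.exp ‖Z0‖ * t ^ 2 := by ring

theorem norm_half {𝕜 : Type*} [RCLike 𝕜] : ‖(1 / 2 : 𝕜)‖ = 1 / 2 := by
  rw [norm_div, norm_one, RCLike.norm_ofNat]

/-- ROOT -/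
theorem rootk {𝕜 : Type*} [RCLike 𝕜] {A : Type*} [NormedRing A] [NormedAlgebra 𝕜 A]
    [CompleteSpace A] (g : A)
    (hg : ‖g - 1‖ ≤ 1 / 4) : ∃ a : A, a * a = g ∧ ‖a - 1‖ ≤ ‖g - 1‖ := by
  set r : ℝ := ‖g - 1‖ with hr
  have hr0 : 0 ≤ r := norm_nonneg _
  let f : A → A := fun x => (1 / 2 : 𝕜) • (g - 1 - x * x)
  have hmaps : Set.MapsTo f (Metric.closedBall 0 r) (Metric.closedBall 0 r) := by
    intro x hx
    rw [mem_closedBall_zero_iff] at hx ⊢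
    have h1 : ‖f x‖ ≤ 1 / 2 * (r + r * r) := by
      change ‖(1 / 2 : 𝕜) • (g - 1 - x * x)‖ ≤ _
      rw [norm_smul, norm_half]
      gcongr
      refine (norm_sub_le _ _).trans ?_
      rw [← hr]
      gcongr
      exact (norm_mul_le _ _).trans (mul_le_mul hx hx (norm_nonneg _) hr0)
    nlinarith
  have hcontr : ContractingWith (1 / 2) (hmaps.restrict f (Metric.closedBall 0 r)
      (Metric.closedBall 0 r)) := by
    refine ⟨by norm_num, ?_⟩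
    apply LipschitzWith.of_dist_le_mul
    rintro ⟨x, hx⟩ ⟨y, hy⟩
    rw [mem_closedBall_zero_iff] at hx hy
    change dist (f x) (f y) ≤ _ * dist x y
    rw [dist_eq_norm, dist_eq_norm]
    have e : f x - f y = (1 / 2 : 𝕜) • (y * (y - x) + (y - x) * x) := by
      change (1 / 2 : 𝕜) • (g - 1 - x * x) - (1 / 2 : 𝕜) • (g - 1 - y * y) = _
      rw [← smul_sub]
      congr 1
      noncomm_ring
    rw [e, norm_smul, norm_half]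
    have h2 : ‖y * (y - x) + (y - x) * x‖ ≤ r * ‖x - y‖ + ‖x - y‖ * r := by
      refine (norm_add_le _ _).trans ?_
      rw [norm_sub_rev x y]
      refine add_le_add ((norm_mul_le _ _).trans ?_) ((norm_mul_le _ _).trans ?_)
      · gcongr
      · gcongr
    have h3 : ((1 / 2 : NNReal) : ℝ) = 1 / 2 := by norm_num
    rw [h3]
    nlinarith [norm_nonneg (x - y)]
  obtain ⟨x, hx, hfx, -⟩ := hcontr.exists_fixedPoint' Metric.isClosed_closedBall.isComplete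
    hmaps (x := 0) (by simpa using hr0) (edist_ne_top _ _)
  rw [mem_closedBall_zero_iff] at hx
  refine ⟨1 + x, ?_, by simpa using hx⟩
  have h4 : (1 / 2 : 𝕜) • (g - 1 - x * x) = x := hfx
  have h5 : g - 1 - x * x = (2 : 𝕜) • x := by
    have h7 := congrArg (fun y => (2 : 𝕜) • y) h4
    simpa [smul_smul] using h7
  have h6 : g = 1 + (2 : 𝕜) • x + x * x := by rw [← h5]; abel
  rw [h6, two_smul]
  noncomm_ring


theorem pwStmt : PWStmt := by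
  intro R _ a m
  have h := pw a m
  rwa [nsmul_eq_mul] at h

theorem plStmt : PLStmt := by
  intro 𝕜 _ V _ _ _ K _ ε Z Z0 hε hε0 hZ hK
  have : ProperSpace (V →L[𝕜] V) := FiniteDimensional.proper_rclike 𝕜 _
  have h := plk (𝕜 := 𝕜) K ε Z Z0 hε hε0 hZ (fun t ht H φ hφ hH => hK t ht.1 ht.2 φ hφ H hH)
  refine ⟨‖Z0‖ ^ 2 * Real.exp ‖Z0‖, by positivity, fun t h0 h1 => ?_⟩
  obtain ⟨κ, hκ, hb⟩ := h t ⟨h0, h1⟩
  exact ⟨κ, hκ, by rw [norm_sub_rev]; exact hb⟩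

theorem rootStmt : ROOTStmt := by
  intro 𝕜 _ V _ _ _
  have : CompleteSpace (V →L[𝕜] V) := FiniteDimensional.complete 𝕜 _
  exact ⟨1 / 4, by norm_num, fun g hg => rootk (𝕜 := 𝕜) g hg⟩

end Pool.Agent.BAN.H54
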