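import Pool.Agent.Helper54_BAN.RootK

/-!
Squad BAN (MP_592924_gt): SQRT over `RCLike` (helper54).
-/

set_option autoImplicit false

namespace Pool.Agent.BAN.H54

open Filter Topology

variable {𝕜 : Type} [RCLike 𝕜] {V : Type} [NormedAddCommGroup V] [InnerProductSpace 𝕜 V]
  [FiniteDimensional 𝕜 V]

variable {K : Set (V →L[𝕜] V)}

omit [FiniteDimensional 𝕜 V] in
theorem cg_norm_mul_left (hK : CGrp K) {a : V →L[𝕜] V} (ha : a ∈ K) (X : V →L[𝕜] V) :
    ‖a * X‖ = ‖X‖ := by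
  apply le_antisymm
  · refine ContinuousLinearMap.opNorm_le_bound _ (norm_nonneg _) fun v => ?_
    change ‖a (X v)‖ ≤ _
    rw [hK.iso a ha]
    exact X.le_opNorm v
  · refine ContinuousLinearMap.opNorm_le_bound _ (norm_nonneg _) fun v => ?_
    rw [← hK.iso a ha]
    exact (a * X).le_opNorm v

omit [FiniteDimensional 𝕜 V] in
theorem cg_norm_le_one (hK : CGrp K) {a : V →L[𝕜] V} (ha : a ∈ K) : ‖a‖ ≤ 1 := by
  refine ContinuousLinearMap.opNorm_le_bound _ zero_le_one fun v => ?_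
  rw [hK.iso a ha, one_mul]

omit [FiniteDimensional 𝕜 V] in
theorem cg_norm_mul_right (hK : CGrp K) {a : V →L[𝕜] V} (ha : a ∈ K) (X : V →L[𝕜] V) :
    ‖X * a‖ = ‖X‖ := by
  obtain ⟨b, hb, -, hab⟩ := hK.inv a ha
  apply le_antisymm
  · calc ‖X * a‖ ≤ ‖X‖ * ‖a‖ := norm_mul_le _ _
      _ ≤ ‖X‖ * 1 := by gcongr; exact cg_norm_le_one hK ha
      _ = ‖X‖ := mul_one _
  · calc ‖X‖ = ‖X * a * b‖ := by rw [mul_assoc, hab, mul_one]
      _ ≤ ‖X * a‖ * ‖b‖ := norm_mul_le _ _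
      _ ≤ ‖X * a‖ * 1 := by gcongr; exact cg_norm_le_one hK hb
      _ = ‖X * a‖ := mul_one _

omit [FiniteDimensional 𝕜 V] in
theorem cg_pow_mem (hK : CGrp K) {a : V →L[𝕜] V} (ha : a ∈ K) (m : ℕ) : a ^ m ∈ K := by
  induction m with
  | zero => rw [pow_zero]; exact hK.one
  | succ m ih => rw [pow_succ]; exact hK.mul _ ih _ ha

theorem cg_cpt (hK : CGrp K) : IsCompact K := by
  have : ProperSpace (V →L[𝕜] V) := FiniteDimensional.proper_rclike 𝕜 _
  refine Metric.isCompact_of_isClosed_isBounded hK.closed ?_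
  refine Metric.isBounded_closedBall.subset (?_ : K ⊆ Metric.closedBall 0 1)
  intro a ha
  rw [mem_closedBall_zero_iff]
  exact cg_norm_le_one hK ha

/-- SQRT -/
theorem sqrtk (hK : CGrp K) : ∃ r0 : ℝ, 0 < r0 ∧ ∀ κ ∈ K, ‖κ - 1‖ ≤ r0 →
    ∃ l ∈ K, l * l = κ ∧ ‖l - 1‖ ≤ ‖κ - 1‖ := by
  have : ProperSpace (V →L[𝕜] V) := FiniteDimensional.proper_rclike 𝕜 _
  have : CompleteSpace (V →L[𝕜] V) := FiniteDimensional.complete 𝕜 _
  by_contra hcon
  push Not at hcon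
  have hseq : ∀ i : ℕ, ∃ κ ∈ K, ‖κ - 1‖ ≤ 1 / ((i : ℝ) + 4) ∧
      ∀ l ∈ K, l * l = κ → ‖κ - 1‖ < ‖l - 1‖ := fun i => by
    obtain ⟨κ, h1, h2, h3⟩ := hcon (1 / ((i : ℝ) + 4)) (by positivity)
    exact ⟨κ, h1, h2, h3⟩
  choose κ hκK hκ1 hκn using hseq
  have hroot : ∀ i : ℕ, ∃ a : V →L[𝕜] V, a * a = κ i ∧ ‖a - 1‖ ≤ ‖κ i - 1‖ := fun i => by
    apply rootk (𝕜 := 𝕜)
    refine (hκ1 i).trans ?_
    have : (0 : ℝ) ≤ i := Nat.cast_nonneg i
    exact one_div_le_one_div_of_le (by norm_num) (by linarith)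
  choose a haa ha1 using hroot
  have haK : ∀ i, a i ∉ K := fun i h => absurd (ha1 i) (not_le.mpr (hκn i _ h (haa i)))
  have hnear : ∀ i : ℕ, ∃ μ ∈ K, ∀ x ∈ K, ‖a i - μ‖ ≤ ‖a i - x‖ := fun i => by
    obtain ⟨μ, hμ, hmin⟩ := (cg_cpt hK).exists_isMinOn ⟨1, hK.one⟩
      (f := fun x => ‖a i - x‖) (by fun_prop)
    exact ⟨μ, hμ, fun x hx => hmin hx⟩
  choose μ hμK hμ using hnear
  have hinv : ∀ i : ℕ, ∃ b ∈ K, μ i * b = 1 ∧ b * μ i = 1 := fun i => by
    obtain ⟨b, hb, h1, h2⟩ := hK.inv _ (hμK i)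
    exact ⟨b, hb, h2, h1⟩
  choose n hnK hμn hnμ using hinv
  set E : ℕ → (V →L[𝕜] V) := fun i => n i * a i - 1 with hE0
  have hE : ∀ i, E i = n i * a i - 1 := fun i => rfl
  set e : ℕ → ℝ := fun i => ‖E i‖ with he
  have hEa : ∀ i, E i = n i * (a i - μ i) := fun i => by rw [hE, mul_sub, hnμ]
  have hei : ∀ i, e i = ‖a i - μ i‖ := fun i => by
    rw [he]; simp only; rw [hEa, cg_norm_mul_left hK (hnK i)]
  have hepos : ∀ i, 0 < e i := fun i => by
    rw [hei, norm_pos_iff]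
    intro h
    exact haK i (by rw [sub_eq_zero.mp h]; exact hμK i)
  have hdist : ∀ i, ∀ x ∈ K, e i ≤ ‖1 + E i - x‖ := fun i x hx => by
    have h1 : 1 + E i - x = n i * (a i - μ i * x) := by
      rw [hE, mul_sub, ← mul_assoc, hnμ, one_mul]; abel
    rw [h1, cg_norm_mul_left hK (hnK i), hei]
    exact hμ i _ (hK.mul _ (hμK i) _ hx)
  have hlim0 : Tendsto (fun i : ℕ => 1 / ((i : ℝ) + 4)) atTop (𝓝 0) := by
    have h1 : Tendsto (fun i : ℕ => (i : ℝ) + 4) atTop atTop :=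
      tendsto_atTop_add_const_right _ _ tendsto_natCast_atTop_atTop
    have h2 := h1.inv_tendsto_atTop
    refine h2.congr fun i => ?_
    rw [Pi.inv_apply, one_div]
  have ha0 : ∀ i, ‖a i - 1‖ ≤ 1 / ((i : ℝ) + 4) := fun i => (ha1 i).trans (hκ1 i)
  have hee : ∀ i, e i ≤ 1 / ((i : ℝ) + 4) := fun i => by
    rw [hei]; exact (hμ i 1 hK.one).trans (ha0 i)
  have he0 : Tendsto e atTop (𝓝 0) := squeeze_zero (fun i => (hepos i).le) hee hlim0
  have hμ1 : Tendsto μ atTop (𝓝 1) := by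
    rw [tendsto_iff_norm_sub_tendsto_zero]
    have h2 : Tendsto (fun i : ℕ => 1 / ((i : ℝ) + 4) + 1 / ((i : ℝ) + 4)) atTop (𝓝 0) := by
      simpa using hlim0.add hlim0
    refine squeeze_zero (fun i => norm_nonneg _) (fun i => ?_) h2
    have h3 : μ i - 1 = (a i - 1) - (a i - μ i) := by abel
    rw [h3]
    refine (norm_sub_le _ _).trans (add_le_add (ha0 i) ?_)
    rw [← hei]; exact hee i
  have hn1 : Tendsto n atTop (𝓝 1) := by
    rw [tendsto_iff_norm_sub_tendsto_zero] at hμ1 ⊢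
    refine hμ1.congr fun i => ?_
    have h3 : n i - 1 = n i * (1 - μ i) := by rw [mul_sub, hnμ, mul_one]
    rw [h3, cg_norm_mul_left hK (hnK i), norm_sub_rev]
  -- unit vectors
  obtain ⟨u, hu⟩ : ∃ u : ℕ → (V →L[𝕜] V), u = fun i => (((e i)⁻¹ : ℝ) : 𝕜) • E i := ⟨_, rfl⟩
  have hu1 : ∀ i, u i ∈ Metric.closedBall (0 : V →L[𝕜] V) 1 := fun i => by
    rw [mem_closedBall_zero_iff, hu, norm_smul, RCLike.norm_ofReal, abs_inv,
      abs_of_pos (hepos i)]
    exact (inv_mul_cancel₀ (hepos i).ne').le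
  have hEu : ∀ i, E i = ((e i : ℝ) : 𝕜) • u i := fun i => by
    rw [hu, smul_smul, ← RCLike.ofReal_mul, mul_inv_cancel₀ (hepos i).ne', RCLike.ofReal_one,
      one_smul]
  obtain ⟨U, -, φ, hφ, hU⟩ := (isCompact_closedBall (0 : V →L[𝕜] V) 1).tendsto_subseq hu1
  have hU' : Tendsto (fun i => u (φ i)) atTop (𝓝 U) := hU
  have hφt := hφ.tendsto_atTop
  set g : ℕ → (V →L[𝕜] V) := fun i => n i * κ i * n i with hg
  have hgK : ∀ i, g i ∈ K := fun i => hK.mul _ (hK.mul _ (hnK i) _ (hκK i)) _ (hnK i)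
  set Z : ℕ → (V →L[𝕜] V) := fun i => u i + μ i * u i * n i + E i * (μ i * u i * n i) with hZ
  have hgZ : ∀ i, 1 + ((e i : ℝ) : 𝕜) • Z i = g i := fun i => by
    have h1 : g i = (n i * a i) * (μ i * (n i * a i) * n i) := by
      rw [hg]; simp only
      rw [← haa i]
      calc n i * (a i * a i) * n i = n i * a i * (1 * a i * n i) := by noncomm_ring
        _ = n i * a i * ((μ i * n i) * a i * n i) := by rw [hμn]
        _ = _ := by noncomm_ring
    have h2 : n i * a i = 1 + E i := by rw [hE]; abel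
    have h3 : ((e i : ℝ) : 𝕜) • (μ i * u i * n i) = μ i * E i * n i := by
      have h4 : μ i * (((e i : ℝ) : 𝕜) • u i) * n i = ((e i : ℝ) : 𝕜) • (μ i * u i * n i) := by
        rw [mul_smul_comm ((e i : ℝ) : 𝕜) (μ i) (u i), smul_mul_assoc]
      rw [← h4, ← hEu i]
    rw [h1, h2]
    calc 1 + ((e i : ℝ) : 𝕜) • Z i
        = 1 + (((e i : ℝ) : 𝕜) • u i + ((e i : ℝ) : 𝕜) • (μ i * u i * n i) + E i * (((e i : ℝ) : 𝕜) • (μ i * u i * n i))) := by
          rw [hZ]; simp only [smul_add, mul_smul_comm]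
      _ = 1 + (E i + μ i * E i * n i + E i * (μ i * E i * n i)) := by rw [← hEu, h3]
      _ = (1 + E i) * (μ i * n i + μ i * E i * n i) := by rw [hμn]; noncomm_ring
      _ = _ := by noncomm_ring
  have hZl : Tendsto (fun i => Z (φ i)) atTop (𝓝 ((2 : 𝕜) • U)) := by
    have hm := (hμ1.comp hφt)
    have hn := (hn1.comp hφt)
    have hE0 : Tendsto (fun i => E (φ i)) atTop (𝓝 0) := by
      rw [tendsto_zero_iff_norm_tendsto_zero]
      exact he0.comp hφt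
    have h1 : Tendsto (fun i => μ (φ i) * u (φ i) * n (φ i)) atTop (𝓝 (1 * U * 1)) :=
      (hm.mul hU').mul hn
    have h2 := (hU'.add h1).add (hE0.mul h1)
    have h3 : U + 1 * U * 1 + 0 * (1 * U * 1) = (2 : 𝕜) • U := by
      rw [two_smul]; simp
    rw [h3] at h2
    exact h2
  have hpl := plk (𝕜 := 𝕜) K (fun i => e (φ i)) (fun i => Z (φ i)) ((2 : 𝕜) • U) (fun i => hepos _)
    (he0.comp hφt) hZl (by
      intro t _ H ψ _ hH
      refine hK.closed.mem_of_tendsto hH (Eventually.of_forall fun i => ?_)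
      simp only [hgZ]
      exact cg_pow_mem hK (hgK _) _)
  set C : ℝ := ‖(2 : 𝕜) • U‖ ^ 2 * Real.exp ‖(2 : 𝕜) • U‖ with hC
  have hkey : ∀ i, 1 ≤ ‖u (φ i) - U‖ + C * (e (φ i) / 4) := fun i => by
    have hle1 : e (φ i) ≤ 1 := by
      refine (hee _).trans ?_
      have : (0 : ℝ) ≤ φ i := Nat.cast_nonneg _
      rw [div_le_one (by positivity)]
      linarith
    obtain ⟨x, hx, hxn⟩ := hpl (e (φ i) / 2) ⟨by have := hepos (φ i); positivity, by linarith⟩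
    have h1 := hdist (φ i) x hx
    have h2 : (1 : V →L[𝕜] V) + E (φ i) - x
        = ((e (φ i) : ℝ) : 𝕜) • (u (φ i) - U)
          - (x - (1 + ((e (φ i) / 2 : ℝ) : 𝕜) • ((2 : 𝕜) • U))) := by
      have h5 : ((e (φ i) / 2 : ℝ) : 𝕜) * 2 = ((e (φ i) : ℝ) : 𝕜) := by
        push_cast
        exact div_mul_cancel₀ _ two_ne_zero
      rw [smul_sub, ← hEu, smul_smul, h5]
      abel
    have h3 : ‖(1 : V →L[𝕜] V) + E (φ i) - x‖
        ≤ e (φ i) * ‖u (φ i) - U‖ + C * (e (φ i) / 2) ^ 2 := by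
      rw [h2]
      refine (norm_sub_le _ _).trans (add_le_add ?_ hxn)
      rw [norm_smul, RCLike.norm_ofReal, abs_of_pos (hepos _)]
    have h4 : e (φ i) * 1 ≤ e (φ i) * (‖u (φ i) - U‖ + C * (e (φ i) / 4)) := by
      rw [mul_one]
      refine (h1.trans h3).trans (le_of_eq ?_)
      ring
    exact le_of_mul_le_mul_left h4 (hepos _)
  have hl : Tendsto (fun i => ‖u (φ i) - U‖ + C * (e (φ i) / 4)) atTop (𝓝 0) := by
    have h1 : Tendsto (fun i => ‖u (φ i) - U‖) atTop (𝓝 0) :=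
      tendsto_iff_norm_sub_tendsto_zero.mp hU'
    have h2 : Tendsto (fun i => C * (e (φ i) / 4)) atTop (𝓝 (C * (0 / 4))) :=
      ((he0.comp hφt).div_const 4).const_mul C
    have h3 := h1.add h2
    simpa using h3
  have := ge_of_tendsto' hl hkey
  linarith


theorem sqrtStmt : SQRTStmt := by
  intro 𝕜 _ V _ _ _ K hK
  exact sqrtk hK

end Pool.Agent.BAN.H54
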